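import Mathlib
import Pool.Agent.V1119.EX.Main

/-!
# Extendable endomorphisms of groups are inner or trivial

An endomorphism `α` of a group `G` is extendable if for every homomorphism `f : G → H` there is an
endomorphism `β` of `H` with `β f = f α`.  We answer Bergman's question: every extendable
endomorphism is an inner automorphism or the trivial endomorphism, and it admits a coherent choice
of the endomorphisms `β`.
-/

set_option autoImplicit false

namespace Pool.Agent.Results.MP_995dc9_al.ExtendableInner

universe u

/-- `α` is extendable: along every homomorphism `f : G → H` there is an endomorphism `β` of `H` with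
`β f = f α`. -/
def Extendable {G : Type u} [Group G] (α : G →* G) : Prop :=
  ∀ (H : Type u) [Group H] (f : G →* H), ∃ β : H →* H, β.comp f = f.comp α

/-- A coherent choice for `α`: endomorphisms `β f` with `β f ∘ f = f ∘ α` such that
`β (h ∘ f) ∘ h = h ∘ β f` for all homomorphisms `f : G → H₁` and `h : H₁ → H₂`. -/
structure CoherentChoice {G : Type u} [Group G] (α : G →* G) where
  /-- the endomorphism attached to `f : G → H` -/
  β : ∀ (H : Type u) [Group H] (_ : G →* H), H →* H
  extend : ∀ (H : Type u) [Group H] (f : G →* H), (β H f).comp f = f.comp α
  natural : ∀ (H₁ H₂ : Type u) [Group H₁] [Group H₂] (f : G →* H₁) (h : H₁ →* H₂),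
    (β H₂ (h.comp f)).comp h = h.comp (β H₁ f)

/-- Every extendable endomorphism of a group admits a coherent choice, and it is trivial or
inner (conversely, trivial and inner endomorphisms are extendable). -/
theorem result (G : Type u) [Group G] (α : G →* G) :
    (Extendable α → Nonempty (CoherentChoice α)) ∧
    (Extendable α ↔ (α = 1 ∨ ∃ c : G, ∀ g : G, α g = c * g * c⁻¹)) := by
  have h1 : Extendable α → (α = 1 ∨ ∃ c : G, ∀ g : G, α g = c * g * c⁻¹) :=
    fun h => Pool.Agent.V1119.EX.ext_main α h
  have h2 : (α = 1 ∨ ∃ c : G, ∀ g : G, α g = c * g * c⁻¹) → Nonempty (CoherentChoice α) := by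
    rintro (rfl | ⟨c, hc⟩)
    · exact ⟨{
        β := fun H _ _ => 1
        extend := by
          intro H _ f
          ext g
          simp
        natural := by
          intro H₁ H₂ _ _ f h
          ext g
          simp }⟩
    · exact ⟨{
        β := fun H _ f => (MulAut.conj (f c)).toMonoidHom
        extend := by
          intro H _ f
          ext g
          simp [hc]
        natural := by
          intro H₁ H₂ _ _ f h
          ext g
          simp }⟩
  refine ⟨fun h => h2 (h1 h), h1, fun h => ?_⟩
  obtain ⟨C⟩ := h2 h
  intro H _ f
  exact ⟨C.β H f, C.extend H f⟩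

end Pool.Agent.Results.MP_995dc9_al.ExtendableInner
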